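import Mathlib
import Pool.Agent.Lib.P6e0919.Lower

/-!
# The stable rank of the Nevanlinna class is 2

`Nevanlinna` is the Nevanlinna class of the open unit disc, as an algebra of functions on the
disc with pointwise operations, and `stableRank A` is the (Bass) stable rank of a commutative
ring, exactly as in the problem file.
-/

open Complex Metric Real

namespace Pool.Agent.Results.MP_6e0919_an.StableRankTwo

open Pool.Agent.Lib.P6e0919

/-- `F` is holomorphic on the open unit disc and
`sup_{0 < r < 1} ∫_0^{2π} log⁺ |F(r e^{it})| dt/(2π) < ∞`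
(only the values of `F` on the disc matter). -/
def NevanlinnaBound (F : ℂ → ℂ) : Prop :=
  DifferentiableOn ℂ F (ball (0:ℂ) 1) ∧
    ∃ C : ℝ, ∀ r ∈ Set.Ioo (0:ℝ) 1,
      (∫ t in (0:ℝ)..(2 * Real.pi),
        max 0 (Real.log ‖F (r * Complex.exp (t * Complex.I))‖)) / (2 * Real.pi) ≤ C

lemma nevanlinnaBound_iff (F : ℂ → ℂ) : NevanlinnaBound F ↔ IsNev F := by
  unfold NevanlinnaBound IsNev
  refine and_congr_right fun _ => exists_congr fun C => forall₂_congr fun r _ => ?_
  have : circleAverage (fun z => Real.posLog ‖F z‖) 0 r =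
      (∫ t in (0:ℝ)..(2 * Real.pi),
        max 0 (Real.log ‖F (r * Complex.exp (t * Complex.I))‖)) / (2 * Real.pi) := by
    rw [circleAverage_def, smul_eq_mul, div_eq_inv_mul]
    simp only [circleMap, zero_add, Real.posLog_apply]
  rw [this]

/-- The Nevanlinna class of the open unit disc, as a subalgebra of the algebra of all complex
valued functions on the disc. -/
def Nevanlinna : Subalgebra ℂ (ball (0:ℂ) 1 → ℂ) where
  carrier := {f | ∃ F : ℂ → ℂ, NevanlinnaBound F ∧ ∀ z : ball (0:ℂ) 1, f z = F z}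
  mul_mem' := by
    rintro f g ⟨F, hF, hf⟩ ⟨G, hG, hg⟩
    rw [nevanlinnaBound_iff] at hF hG
    exact ⟨fun z => F z * G z, (nevanlinnaBound_iff _).2 (hF.mul hG), fun z => by
      rw [Pi.mul_apply, hf z, hg z]⟩
  add_mem' := by
    rintro f g ⟨F, hF, hf⟩ ⟨G, hG, hg⟩
    rw [nevanlinnaBound_iff] at hF hG
    exact ⟨fun z => F z + G z, (nevanlinnaBound_iff _).2 (hF.add hG), fun z => by
      rw [Pi.add_apply, hf z, hg z]⟩
  algebraMap_mem' := by
    intro c
    exact ⟨fun _ => c, (nevanlinnaBound_iff _).2 (isNev_const c), fun z => rfl⟩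

/-- A tuple is unimodular if the ideal it generates is the whole ring. -/
def Unimodular {A : Type*} [CommRing A] {n : ℕ} (v : Fin n → A) : Prop :=
  Ideal.span (Set.range v) = ⊤

/-- An `(n+1)`-tuple `(f_1, …, f_{n+1})` is reducible if for some `h_1, …, h_n` the `n`-tuple
`(f_1 + h_1 f_{n+1}, …, f_n + h_n f_{n+1})` is unimodular. -/
def Reducible {A : Type*} [CommRing A] {n : ℕ} (v : Fin (n + 1) → A) : Prop :=
  ∃ h : Fin n → A, Unimodular (fun i => v i.castSucc + h i * v (Fin.last n))

/-- The stable rank: the least `n ≥ 1` such that every unimodular `(n+1)`-tuple is reducible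
(`∞` if there is none). -/
noncomputable def stableRank (A : Type*) [CommRing A] : ℕ∞ :=
  ⨅ (n : ℕ) (_ : 1 ≤ n ∧ ∀ v : Fin (n + 1) → A, Unimodular v → Reducible v), (n : ℕ∞)

lemma unimodular_iff {A : Type*} [CommRing A] {n : ℕ} (v : Fin n → A) :
    Unimodular v ↔ ∃ c : Fin n → A, ∑ i, c i * v i = 1 := by
  rw [Unimodular, Ideal.eq_top_iff_one, Ideal.mem_span_range_iff_exists_fun]

/-- a function on the plane representing an element of the class -/
lemma exists_ext (f : Nevanlinna) : ∃ F : ℂ → ℂ, IsNev F ∧ ∀ z : ball (0:ℂ) 1, f.1 z = F z := by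
  obtain ⟨F, hF, h⟩ := f.2
  exact ⟨F, (nevanlinnaBound_iff F).1 hF, h⟩

/-- the element of the class represented by a function on the plane -/
def mk (F : ℂ → ℂ) (hF : IsNev F) : Nevanlinna :=
  ⟨fun z => F z, F, (nevanlinnaBound_iff F).2 hF, fun _ => rfl⟩

lemma triples (v : Fin 3 → Nevanlinna) (hv : Unimodular v) : Reducible v := by
  obtain ⟨c, hc⟩ := (unimodular_iff v).1 hv
  choose F hF hFe using fun f : Nevanlinna => exists_ext f
  rw [Fin.sum_univ_three] at hc
  have hc' : ∀ z ∈ ball (0:ℂ) 1, F (c 0) z * F (v 0) z + F (c 1) z * F (v 1) z +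
      F (c 2) z * F (v 2) z = 1 := by
    intro z hz
    have h1 := congrFun (congrArg Subtype.val hc) ⟨z, hz⟩
    simp only [Subalgebra.coe_add, Subalgebra.coe_mul, Subalgebra.coe_one, Pi.add_apply,
      Pi.mul_apply, Pi.one_apply] at h1
    rw [hFe (c 0), hFe (v 0), hFe (c 1), hFe (v 1), hFe (c 2), hFe (v 2)] at h1
    exact h1
  obtain ⟨h1, h2, a, b, hh1, hh2, ha, hb, hab⟩ := upper (hF (v 0)) (hF (v 1)) (hF (v 2))
    (hF (c 0)) (hF (c 1)) (hF (c 2)) hc'
  refine ⟨![mk h1 hh1, mk h2 hh2], ?_⟩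
  rw [unimodular_iff]
  refine ⟨![mk a ha, mk b hb], ?_⟩
  rw [Fin.sum_univ_two]
  apply Subtype.ext
  funext z
  have h3 := hab z.1 z.2
  simp only [Subalgebra.coe_add, Subalgebra.coe_mul, Subalgebra.coe_one, Pi.add_apply,
    Pi.mul_apply, Pi.one_apply, Matrix.cons_val_zero, Matrix.cons_val_one, mk]
  rw [← h3]
  simp only [← hFe]
  rfl

lemma pair : ∃ v : Fin 2 → Nevanlinna, Unimodular v ∧ ¬ Reducible v := by
  have hN : IsNev (fun z => lf z * lf z - 1) :=
    ((isNev_lf.mul isNev_lf).add_const_mul (isNev_const 1) (-1)).congr (fun z _ => by ring)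
  refine ⟨![mk lf isNev_lf, mk _ hN], ?_, ?_⟩
  · rw [unimodular_iff]
    refine ⟨![mk lf isNev_lf, mk (fun _ => -1) (isNev_const (-1))], ?_⟩
    rw [Fin.sum_univ_two]
    apply Subtype.ext
    funext z
    simp only [Subalgebra.coe_add, Subalgebra.coe_mul, Subalgebra.coe_one, Pi.add_apply,
      Pi.mul_apply, Pi.one_apply, Matrix.cons_val_zero, Matrix.cons_val_one, mk]
    ring
  · rintro ⟨h, hh⟩
    rw [unimodular_iff] at hh
    obtain ⟨c, hc⟩ := hh
    rw [Fin.sum_univ_one] at hc
    obtain ⟨a, ha, hae⟩ := exists_ext (h 0)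
    obtain ⟨b, hb, hbe⟩ := exists_ext (c 0)
    refine lower ha hb (fun z hz => ?_)
    have h1 := congrFun (congrArg Subtype.val hc) ⟨z, hz⟩
    simp only [Subalgebra.coe_add, Subalgebra.coe_mul, Subalgebra.coe_one, Pi.add_apply,
      Pi.mul_apply, Pi.one_apply] at h1
    rw [hae, hbe] at h1
    exact h1

/-- The stable rank of the Nevanlinna class of the unit disc is `2`. -/
theorem result : stableRank Nevanlinna = 2 := by
  apply le_antisymm
  · exact iInf₂_le (2:ℕ) ⟨one_le_two, triples⟩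
  · apply le_iInf₂
    rintro n ⟨hn1, hn⟩
    have h2 : 2 ≤ n := by
      rcases Nat.lt_or_ge n 2 with h | h
      · exfalso
        have : n = 1 := by omega
        subst this
        obtain ⟨v, hv1, hv2⟩ := pair
        exact hv2 (hn v hv1)
      · exact h
    exact_mod_cast h2

end Pool.Agent.Results.MP_6e0919_an.StableRankTwo
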